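import Pool.Agent.R697.LD.Conj

/-!
# The local derivations of a finite-dimensional algebra form a Lie algebra

More generally: if `L` is a Lie algebra of linear operators on a finite-dimensional real or
complex vector space `V`, then the operators `Δ` with `Δ x ∈ L x` for all `x` form a Lie algebra.

Proof. For `D ∈ L` and such a `Δ`, all the operators `exp(-tD) Δ exp(tD)` have this property, as
`exp(-tD) L exp(tD) = L`; differentiation at `t = 0` gives `[Δ, D] x ∈ L x`. For two such operators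
`Δ₁, Δ₂` with `Δ₁ x = D x`, `Δ₂ x = E x`, `D, E ∈ L`, one has
`[Δ₁, Δ₂] x = [Δ₁, E] x - [Δ₂, D] x - [D, E] x ∈ L x`.
-/

set_option autoImplicit false

namespace Pool.Agent.Results.MP_066924_al.LocalDerivationsLie

open Pool.Agent.R697.LD

universe u v

section Defs

variable {𝕜 : Type u} [Field 𝕜] {A : Type v} [AddCommGroup A] [Module 𝕜 A]

/-- `D` is a derivation of the algebra `A` with the bilinear product `m`. -/
def IsDerivation (m : A →ₗ[𝕜] A →ₗ[𝕜] A) (D : A →ₗ[𝕜] A) : Prop :=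
  ∀ x y : A, D (m x y) = m (D x) y + m x (D y)

/-- `Δ` is a local derivation of the algebra `A` with the bilinear product `m`. -/
def IsLocalDerivation (m : A →ₗ[𝕜] A →ₗ[𝕜] A) (Δ : A →ₗ[𝕜] A) : Prop :=
  ∀ x : A, ∃ D : A →ₗ[𝕜] A, IsDerivation m D ∧ Δ x = D x

/-- `Δ` is locally in the set `L` of linear operators. -/
def IsLocallyIn (L : Set (A →ₗ[𝕜] A)) (Δ : A →ₗ[𝕜] A) : Prop :=
  ∀ x : A, ∃ D ∈ L, Δ x = D x

end Defs

section Main

variable {𝕜 : Type u} [RCLike 𝕜]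

theorem normed {V : Type v} [NormedAddCommGroup V] [NormedSpace 𝕜 V] [FiniteDimensional 𝕜 V]
    (L : Submodule 𝕜 (V →ₗ[𝕜] V)) (hL : ∀ D ∈ L, ∀ E ∈ L, D ∘ₗ E - E ∘ₗ D ∈ L)
    {S T : V →ₗ[𝕜] V} (hS : IsLocallyIn (L : Set (V →ₗ[𝕜] V)) S)
    (hT : IsLocallyIn (L : Set (V →ₗ[𝕜] V)) T) :
    IsLocallyIn (L : Set (V →ₗ[𝕜] V)) (S ∘ₗ T - T ∘ₗ S) := by
  let _ : NormedSpace ℝ V := NormedSpace.restrictScalars ℝ 𝕜 V
  have : IsScalarTower ℝ 𝕜 V := inferInstance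
  have : FiniteDimensional ℝ V := FiniteDimensional.trans ℝ 𝕜 V
  let Lr : Submodule ℝ (V →L[ℝ] V) :=
    { carrier := {X | ∃ D ∈ L, ∀ x, X x = D x}
      add_mem' := by
        rintro X Y ⟨D, hD, eD⟩ ⟨E, hE, eE⟩
        exact ⟨D + E, L.add_mem hD hE, fun x => by
          rw [ContinuousLinearMap.add_apply, eD, eE]; rfl⟩
      zero_mem' := ⟨0, L.zero_mem, fun x => rfl⟩
      smul_mem' := by
        rintro c X ⟨D, hD, eD⟩
        refine ⟨(c : 𝕜) • D, L.smul_mem _ hD, fun x => ?_⟩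
        rw [ContinuousLinearMap.smul_apply, eD, LinearMap.smul_apply]
        exact (RCLike.real_smul_eq_coe_smul (K := 𝕜) c (D x)) }
  have hLr : ∀ D ∈ Lr, ∀ X ∈ Lr, X * D - D * X ∈ Lr := by
    rintro X ⟨D, hD, eD⟩ Y ⟨E, hE, eE⟩
    refine ⟨E ∘ₗ D - D ∘ₗ E, hL E hE D hD, fun x => ?_⟩
    show Y (X x) - X (Y x) = E (D x) - D (E x)
    rw [eD, eE, eD, eE]
  let c : (V →ₗ[𝕜] V) → (V →L[ℝ] V) := fun R => LinearMap.toContinuousLinearMap
    (R.restrictScalars ℝ)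
  have hc : ∀ R x, c R x = R x := fun R x => rfl
  have key : ∀ R, IsLocallyIn (L : Set (V →ₗ[𝕜] V)) R → IsLocal Lr (c R) := by
    intro R hR x
    obtain ⟨D, hD, e⟩ := hR x
    exact ⟨c D, ⟨D, hD, fun _ => rfl⟩, e⟩
  intro x
  obtain ⟨X, ⟨D, hD, eD⟩, e⟩ := isLocal_bracket hLr (key S hS) (key T hT) x
  exact ⟨D, hD, e.trans (eD x)⟩

end Main

/-- **Local derivations form a Lie algebra.** Let `𝕜` be `ℝ` or `ℂ` and `A` a finite-dimensional
vector space over `𝕜`.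

(1) For every bilinear product `m` on `A`, the commutator of two local derivations of the algebra
`(A, m)` is a local derivation of `(A, m)`.

(2) More generally, for every Lie algebra `L` of linear operators on `A` (a subspace of `End(A)`
closed under commutators), the commutator of two operators which are locally in `L` is locally in
`L`. -/
theorem result (𝕜 : Type u) [RCLike 𝕜] (A : Type v) [AddCommGroup A] [Module 𝕜 A]
    [FiniteDimensional 𝕜 A] :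
    (∀ (m : A →ₗ[𝕜] A →ₗ[𝕜] A) (Δ₁ Δ₂ : A →ₗ[𝕜] A), IsLocalDerivation m Δ₁ →
      IsLocalDerivation m Δ₂ → IsLocalDerivation m (Δ₁ ∘ₗ Δ₂ - Δ₂ ∘ₗ Δ₁)) ∧
    (∀ (L : Submodule 𝕜 (A →ₗ[𝕜] A)), (∀ D ∈ L, ∀ E ∈ L, D ∘ₗ E - E ∘ₗ D ∈ L) →
      ∀ Δ₁ Δ₂ : A →ₗ[𝕜] A, IsLocallyIn (L : Set (A →ₗ[𝕜] A)) Δ₁ →
        IsLocallyIn (L : Set (A →ₗ[𝕜] A)) Δ₂ →
          IsLocallyIn (L : Set (A →ₗ[𝕜] A)) (Δ₁ ∘ₗ Δ₂ - Δ₂ ∘ₗ Δ₁)) := by
  have gen : ∀ (L : Submodule 𝕜 (A →ₗ[𝕜] A)), (∀ D ∈ L, ∀ E ∈ L, D ∘ₗ E - E ∘ₗ D ∈ L) →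
      ∀ Δ₁ Δ₂ : A →ₗ[𝕜] A, IsLocallyIn (L : Set (A →ₗ[𝕜] A)) Δ₁ →
        IsLocallyIn (L : Set (A →ₗ[𝕜] A)) Δ₂ →
          IsLocallyIn (L : Set (A →ₗ[𝕜] A)) (Δ₁ ∘ₗ Δ₂ - Δ₂ ∘ₗ Δ₁) := by
    intro L hL Δ₁ Δ₂ h1 h2
    let e := (Module.finBasis 𝕜 A).equivFun
    let _ : NormedAddCommGroup A :=
      NormedAddCommGroup.induced A (Fin (Module.finrank 𝕜 A) → 𝕜) e.toLinearMap e.injective
    let _ : NormedSpace 𝕜 A :=
      NormedSpace.induced 𝕜 A (Fin (Module.finrank 𝕜 A) → 𝕜) e.toLinearMap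
    exact normed L hL h1 h2
  refine ⟨fun m Δ₁ Δ₂ h1 h2 => ?_, gen⟩
  let L : Submodule 𝕜 (A →ₗ[𝕜] A) :=
    { carrier := {D | IsDerivation m D}
      add_mem' := by
        intro D E hD hE x y
        simp only [LinearMap.add_apply, map_add, hD x y, hE x y]
        abel
      zero_mem' := by
        intro x y
        simp
      smul_mem' := by
        intro c D hD x y
        simp only [LinearMap.smul_apply, map_smul, hD x y, smul_add] }
  have hL : ∀ D ∈ L, ∀ E ∈ L, D ∘ₗ E - E ∘ₗ D ∈ L := by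
    intro D hD E hE x y
    have hD' : ∀ x y, D (m x y) = m (D x) y + m x (D y) := hD
    have hE' : ∀ x y, E (m x y) = m (E x) y + m x (E y) := hE
    simp only [LinearMap.sub_apply, LinearMap.comp_apply, hD', hE', map_add, map_sub]
    abel
  intro x
  obtain ⟨D, hD, e⟩ := gen L hL Δ₁ Δ₂ (fun x => h1 x) (fun x => h2 x) x
  exact ⟨D, hD, e⟩

end Pool.Agent.Results.MP_066924_al.LocalDerivationsLie
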